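import Pool.Agent.H25.Zykov

/-! The minimum multicut can exceed the network coding rate by any constant factor. -/

namespace Pool.Agent.Results.MP_cbd396_lc.Unbounded

open Finset Relation Pool.Agent.H25.Zykov

/-- `M` is a set of edges whose removal leaves no directed path from `s i` to `t i`. -/
def IsMulticut {V ι : Type} (E : V → V → Prop) (s t : ι → V) (M : Finset (V × V)) : Prop :=
  (∀ e ∈ M, E e.1 e.2) ∧ ∀ i, ¬ ReflTransGen (fun x y => E x y ∧ (x, y) ∉ M) (s i) (t i)

/-- There is a network code over the alphabet `A` with block length `b` and message lengths `a`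
that is a solution: `y u v x` is the symbol on the edge `(u, v)` for the messages `x`. -/
def IsSolution {V ι : Type} (E : V → V → Prop) (s t : ι → V) (A : Type) (b : ℕ) (a : ι → ℕ) :
    Prop :=
  ∃ y : V → V → ((i : ι) → Fin (a i) → A) → (Fin b → A),
    (∀ u v, E u v → ∃ f : ({p // E p u} → Fin b → A) →
        ((i : {i // s i = u}) → Fin (a i) → A) → (Fin b → A),
      ∀ x, y u v x = f (fun p => y p u x) (fun i => x i)) ∧
    (∀ i, ∃ g : ({p // E p (t i)} → Fin b → A) → (Fin (a i) → A),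
      ∀ x, g (fun p => y p (t i) x) = x i)

theorem cut_bound {V ι : Type} {E : V → V → Prop} {s t : ι → V} {A : Type} [Fintype A]
    [Nontrivial A] {b : ℕ} {a : ι → ℕ} (h : IsSolution E s t A b a) (rk : V → ℕ)
    (hrk : ∀ u v, E u v → rk u < rk v) (F : Finset (V × V)) (J : Finset ι)
    (hJ : ∀ i ∈ J, ∀ j ∈ J, ¬ ReflTransGen (fun x y => E x y ∧ (x, y) ∉ F) (s i) (t j)) :
    ∑ i ∈ J, a i ≤ F.card * b := by
  classical
  obtain ⟨y, h1, h2⟩ := h
  obtain ⟨a0⟩ : Nonempty A := inferInstance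
  let ext : ((i : J) → Fin (a i) → A) → (i : ι) → Fin (a i) → A :=
    fun z i => if hi : i ∈ J then z ⟨i, hi⟩ else fun _ => a0
  let Φ : ((i : J) → Fin (a i) → A) → (F → Fin b → A) := fun z e => y e.1.1 e.1.2 (ext z)
  have inj : Function.Injective Φ := by
    intro z z' hz
    have key : ∀ n u, rk u < n →
        (∀ i ∈ J, ¬ ReflTransGen (fun x y => E x y ∧ (x, y) ∉ F) (s i) u) →
        ∀ p, E p u → y p u (ext z) = y p u (ext z') := by
      intro n
      induction n with
      | zero => intro u hu; omega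
      | succ n ih =>
        intro u hu hT p hp
        by_cases hF : (p, u) ∈ F
        · exact congrFun hz ⟨(p, u), hF⟩
        have hT' : ∀ i ∈ J, ¬ ReflTransGen (fun x y => E x y ∧ (x, y) ∉ F) (s i) p :=
          fun i hi hr => hT i hi (hr.tail ⟨hp, hF⟩)
        obtain ⟨f, hf⟩ := h1 p u hp
        rw [hf, hf]
        congr 1
        · funext o
          exact ih p (by have := hrk p u hp; omega) hT' o.1 o.2
        · funext i
          have : i.1 ∉ J := fun hi => hT' i.1 hi (by rw [i.2])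
          simp only [ext, dif_neg this]
    funext j
    obtain ⟨g, hg⟩ := h2 j.1
    have e : ext z j.1 = ext z' j.1 := by
      rw [← hg (ext z), ← hg (ext z')]
      congr 1
      funext o
      exact key _ _ (Nat.lt_succ_self _) (fun i hi => hJ i hi j.1 j.2) o.1 o.2
    simpa only [ext, dif_pos j.2] using e
  have hc := Fintype.card_le_of_injective Φ inj
  simp only [Fintype.card_pi, Finset.prod_const, Finset.card_univ, Fintype.card_fin,
    Fintype.card_coe, Finset.prod_pow_eq_pow_sum, ← pow_mul] at hc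
  rw [Finset.sum_coe_sort J a] at hc
  rw [mul_comm]
  exact (Nat.pow_le_pow_iff_right Fintype.one_lt_card).1 hc

/-- pairs with many vertices between them -/
def Pr (S : Sys) (k : ℕ) : Type := {p : S.V × S.V // k + 1 ≤ (S.itv p.1 p.2).card}

noncomputable instance (S : Sys) (k : ℕ) : Fintype (Pr S k) := by
  classical
  unfold Pr
  infer_instance

/-- copies of the vertices -/
abbrev Cp (S : Sys) : Type := Σ v : S.V, Fin (S.w v)

/-- nodes of the network -/
abbrev Nd (S : Sys) (k : ℕ) : Type := (Pr S k × Bool) ⊕ (Cp S × Bool)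

/-- edges of the network -/
inductive Ed (S : Sys) (k : ℕ) : Nd S k → Nd S k → Prop
  | src (i : Pr S k) (c : Cp S) : c.1 = i.1.1 → Ed S k (.inl (i, false)) (.inr (c, false))
  | mid (c : Cp S) : Ed S k (.inr (c, false)) (.inr (c, true))
  | arc (c c' : Cp S) : S.r c.1 c'.1 → Ed S k (.inr (c, true)) (.inr (c', false))
  | snk (i : Pr S k) (c : Cp S) : c.1 = i.1.2 → Ed S k (.inr (c, true)) (.inl (i, true))

/-- rank function -/
noncomputable def rk (S : Sys) (k : ℕ) : Nd S k → ℕ
  | .inl (_, false) => 0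
  | .inl (_, true) => 2 * (∑ v, S.lev v) + 3
  | .inr (c, false) => 2 * ((∑ v, S.lev v) - S.lev c.1) + 1
  | .inr (c, true) => 2 * ((∑ v, S.lev v) - S.lev c.1) + 2

theorem rk_lt (S : Sys) (k : ℕ) (u v : Nd S k) (h : Ed S k u v) : rk S k u < rk S k v := by
  have hl : ∀ v, S.lev v ≤ ∑ v, S.lev v := fun v =>
    Finset.single_le_sum (f := S.lev) (fun _ _ => Nat.zero_le _) (Finset.mem_univ v)
  cases h with
  | src i c _ => simp [rk]
  | mid c => simp [rk]
  | arc c c' h =>
    have := S.lev_lt _ _ h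
    have := hl c.1
    simp only [rk]; omega
  | snk i c _ => simp only [rk]; omega

/-- invariant for walks avoiding the copies of `v` -/
def Inv (S : Sys) (k : ℕ) (v a : S.V) : Nd S k → Prop
  | .inl (i, false) => i.1.1 = a
  | .inl (i, true) => a ≠ v ∧ ReflTransGen (fun x y => S.r x y ∧ y ≠ v) a i.1.2
  | .inr (c, false) => c.1 = a ∨
      (a ≠ v ∧ ∃ z, ReflTransGen (fun x y => S.r x y ∧ y ≠ v) a z ∧ S.r z c.1)
  | .inr (c, true) => a ≠ v ∧ ReflTransGen (fun x y => S.r x y ∧ y ≠ v) a c.1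

theorem rate_bound (S : Sys) (k : ℕ) {A : Type} [Fintype A] [Nontrivial A] {b : ℕ}
    {a : Pr S k → ℕ}
    (h : IsSolution (Ed S k) (fun i => .inl (i, false)) (fun i => .inl (i, true)) A b a) :
    (k + 1) * ∑ i, a i ≤ (∑ v, S.w v) * b := by
  classical
  have h1 : ∀ v, ∑ i ∈ univ.filter (fun i : Pr S k => v ∈ S.itv i.1.1 i.1.2), a i ≤ S.w v * b := by
    intro v
    let F : Finset (Nd S k × Nd S k) := (univ : Finset (Fin (S.w v))).image
      fun c => (.inr (⟨v, c⟩, false), .inr (⟨v, c⟩, true))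
    have hF : F.card ≤ S.w v := Finset.card_image_le.trans (by simp)
    refine (cut_bound h (rk S k) (rk_lt S k) F _ fun i hi j hj hr => ?_).trans
      (Nat.mul_le_mul_right _ hF)
    have inv : ∀ u, ReflTransGen (fun x y => Ed S k x y ∧ (x, y) ∉ F) (.inl (i, false)) u →
        Inv S k v i.1.1 u := by
      intro u hu
      induction hu with
      | refl => exact rfl
      | tail _ h2 ih =>
        obtain ⟨e, hF⟩ := h2
        cases e with
        | src i' c hc => exact Or.inl (hc.trans ih)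
        | mid c =>
          have hc : c.1 ≠ v := by
            rintro rfl
            exact hF (Finset.mem_image.2 ⟨c.2, Finset.mem_univ _, rfl⟩)
          rcases ih with h | ⟨h, z, h1, h2⟩
          · exact ⟨h ▸ hc, by rw [h]⟩
          · exact ⟨h, h1.tail ⟨h2, hc⟩⟩
        | arc c c' hc => exact Or.inr ⟨ih.1, c.1, ih.2, hc⟩
        | snk i' c hc => exact ⟨ih.1, hc ▸ ih.2⟩
    have := inv _ hr
    have i1 := (Finset.mem_filter.1 (Finset.mem_filter.1 hi).2).2.1
    have j1 := (Finset.mem_filter.1 (Finset.mem_filter.1 hj).2).2.2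
    exact S.uniq _ _ _ i1 j1 this.1 this.2
  calc (k + 1) * ∑ i, a i = ∑ i, (k + 1) * a i := Finset.mul_sum _ _ _
    _ ≤ ∑ i : Pr S k, ∑ v ∈ univ.filter (fun v => v ∈ S.itv i.1.1 i.1.2), a i := by
        refine Finset.sum_le_sum fun i _ => ?_
        rw [Finset.sum_const, smul_eq_mul, Finset.filter_univ_mem]
        exact Nat.mul_le_mul_right _ i.2
    _ = ∑ v, ∑ i ∈ univ.filter (fun i : Pr S k => v ∈ S.itv i.1.1 i.1.2), a i := by
        simp only [Finset.sum_filter]
        exact Finset.sum_comm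
    _ ≤ ∑ v, S.w v * b := Finset.sum_le_sum fun v _ => h1 v
    _ = _ := (Finset.sum_mul _ _ _).symm

/-- the copy charged for an edge -/
def ch (S : Sys) (k : ℕ) : Nd S k × Nd S k → Option (Cp S)
  | (_, .inr (c, _)) => some c
  | (.inr (c, _), .inl _) => some c
  | (.inl _, .inl _) => none

theorem cut_large (S : Sys) (k : ℕ) {ρ : ℝ} (h : S.Small ρ) (M : Finset (Nd S k × Nd S k))
    (hM : IsMulticut (Ed S k) (fun i => .inl (i, false)) (fun i => .inl (i, true)) M) :
    ∑ v, (S.w v : ℝ) ≤ M.card + k * (ρ * ∑ v, (S.w v : ℝ)) := by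
  classical
  let I : Finset S.V := univ.filter fun v => ∃ c : Fin (S.w v), some ⟨v, c⟩ ∉ M.image (ch S k)
  have h1 : ∑ v ∈ Iᶜ, S.w v ≤ M.card := by
    have e : ∑ v ∈ Iᶜ, S.w v = (Iᶜ.sigma fun v => (univ : Finset (Fin (S.w v)))).card := by
      simp [Finset.card_sigma]
    rw [e, ← Finset.card_image_of_injective _ (Option.some_injective _)]
    refine le_trans (Finset.card_le_card ?_) (Finset.card_image_le (f := ch S k))
    intro o ho
    obtain ⟨c, hc, rfl⟩ := Finset.mem_image.1 ho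
    have := Finset.mem_compl.1 (Finset.mem_sigma.1 hc).1
    by_contra hn
    exact this (Finset.mem_filter.2 ⟨Finset.mem_univ _, c.2, hn⟩)
  have h2 : ∑ v ∈ I, (S.w v : ℝ) ≤ k * (ρ * ∑ v, (S.w v : ℝ)) := by
    by_contra hn
    obtain ⟨x, hx, y, hy, hk⟩ := S.gallai h I k (not_le.1 hn)
    have nm : ∀ e : Nd S k × Nd S k, ∀ c, ch S k e = some c → some c ∉ M.image (ch S k) →
        e ∉ M := fun e c h1 h2 he => h2 (h1 ▸ Finset.mem_image_of_mem _ he)
    have key : ∀ z, ReflTransGen (fun a b => S.r a b ∧ b ∈ I) x z → ∃ c : Fin (S.w z),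
        some ⟨z, c⟩ ∉ M.image (ch S k) ∧ ReflTransGen (fun p q => Ed S k p q ∧ (p, q) ∉ M)
          (.inl (⟨(x, y), hk⟩, false)) (.inr (⟨z, c⟩, true)) := by
      intro z hz
      induction hz with
      | refl =>
        obtain ⟨c, hc⟩ := (Finset.mem_filter.1 hx).2
        exact ⟨c, hc, (ReflTransGen.single ⟨.src _ ⟨x, c⟩ rfl, nm _ _ rfl hc⟩).tail
          ⟨.mid _, nm _ _ rfl hc⟩⟩
      | tail _ h2 ih =>
        obtain ⟨c, _, hr⟩ := ih
        obtain ⟨c', hc'⟩ := (Finset.mem_filter.1 h2.2).2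
        exact ⟨c', hc', (hr.tail ⟨.arc _ ⟨_, c'⟩ h2.1, nm _ _ rfl hc'⟩).tail
          ⟨.mid _, nm _ _ rfl hc'⟩⟩
    obtain ⟨c, hc, hr⟩ := key y hy
    exact hM.2 ⟨(x, y), hk⟩ (hr.tail ⟨.snk _ ⟨y, c⟩ rfl, nm _ _ rfl hc⟩)
  have h3 := Finset.sum_add_sum_compl I (fun v => (S.w v : ℝ))
  have h4 : ∑ v ∈ Iᶜ, (S.w v : ℝ) ≤ M.card := by exact_mod_cast h1
  linarith

theorem result (K : ℕ) : ∃ (V ι : Type) (_ : Fintype V) (_ : Fintype ι) (E : V → V → Prop)
    (s t : ι → V), (∀ v, ¬ TransGen E v v) ∧ (∃ M, IsMulticut E s t M) ∧ ∃ ρ : ℝ,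
      (∀ (A : Type) [Fintype A] [Nontrivial A] (b : ℕ) (a : ι → ℕ), 1 ≤ b →
        IsSolution E s t A b a → ((∑ i, a i : ℕ) : ℝ) / b ≤ ρ) ∧
      ∀ M, IsMulticut E s t M → K * ρ < M.card := by
  classical
  obtain ⟨S, hS⟩ := exists_small (8 * K + 2) (by omega)
  refine ⟨Nd S (2 * K), Pr S (2 * K), inferInstance, inferInstance, Ed S (2 * K),
    fun i => .inl (i, false), fun i => .inl (i, true), fun v hv => ?_,
    ⟨univ.filter fun e => Ed S (2 * K) e.1 e.2, fun e he => (Finset.mem_filter.1 he).2,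
      fun i hi => ?_⟩, (∑ v, (S.w v : ℝ)) / (2 * K + 1), fun A _ _ b a hb h => ?_, fun M hM => ?_⟩
  · have : ∀ u v, TransGen (Ed S (2 * K)) u v → rk S _ u < rk S _ v := by
      intro u v h
      induction h with
      | single h => exact rk_lt _ _ _ _ h
      | tail _ h ih => exact ih.trans (rk_lt _ _ _ _ h)
    exact lt_irrefl _ (this v v hv)
  · rcases hi.cases_head with h | ⟨c, hc, _⟩
    · simp at h
    · exact hc.2 (Finset.mem_filter.2 ⟨Finset.mem_univ _, hc.1⟩)
  · have h1 := rate_bound S _ h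
    have b0 : (0 : ℝ) < b := by exact_mod_cast hb
    rw [div_le_div_iff₀ b0 (by positivity), mul_comm]
    exact_mod_cast h1
  · have h1 := cut_large S _ hS M hM
    have W0 : (0 : ℝ) < ∑ v, (S.w v : ℝ) := by exact_mod_cast hS.1
    set W := ∑ v, (S.w v : ℝ)
    have K0 : (0 : ℝ) ≤ K := by positivity
    have e1 : K * (W / (2 * K + 1)) < W / 2 := by
      rw [← mul_div_assoc, div_lt_div_iff₀ (by positivity) (by positivity)]
      nlinarith
    have e2 : ((2 * K : ℕ) : ℝ) * (2 / ((8 * K + 2 : ℕ) : ℝ) * W) ≤ W / 2 := by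
      push_cast
      rw [div_mul_eq_mul_div, ← mul_div_assoc, div_le_div_iff₀ (by positivity) (by positivity)]
      nlinarith
    linarith

end Pool.Agent.Results.MP_cbd396_lc.Unbounded
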